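import Pool.Agent.Lib.MP_d82af4_gt.Main

/-!
# No fibred Giroux torsion in Bourgeois contact manifolds (MP_d82af4_gt, Q1, a part)

Let `M` be a manifold with an open book with connected pages, given by `Φ : M → ℂ`, and let
`α` be any one-form on `M`; the Bourgeois form is `α + Φ₁ dx - Φ₂ dy` on `M × 𝕋²`. Not even the half
`N × [0, π] × 𝕊¹` of a Giroux torsion domain admits a contact embedding into `M × 𝕋²` which maps
every circle `{(n, r)} × 𝕊¹` into a torus `{m} × 𝕋²`. The embedding is not assumed to be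
equivariant. The embedding is given by its component `g` in `M` and by the two components `x`, `y`
with values in the unit circle of `ℂ`; the circle variable of the domain is a real variable, with
period `2 π`.
-/

set_option autoImplicit false

open Set
open scoped Manifold ContDiff

namespace Pool.Agent.Results.MP_d82af4_gt.FibredTorsion

open Pool.Agent.BourgeoisTorsion

theorem result (E : Type) [NormedAddCommGroup E] [NormedSpace ℝ E] [FiniteDimensional ℝ E]
    (M N : Type) [TopologicalSpace M] [T2Space M] [ChartedSpace E M] [IsManifold 𝓘(ℝ, E) ∞ M]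
    [TopologicalSpace N] [T2Space N] [CompactSpace N] [ConnectedSpace N]
    [ChartedSpace E N] [IsManifold 𝓘(ℝ, E) ∞ N]
    (α : (m : M) → TangentSpace 𝓘(ℝ, E) m →L[ℝ] ℝ) (Φ : M → ℂ) (hΦ : IsBook Φ)
    (αp αm : (n : N) → TangentSpace 𝓘(ℝ, E) n →L[ℝ] ℝ) :
    ¬ ∃ (g : N × ℝ × ℝ → M) (x y : N × ℝ × ℝ → ℂ),
      IsContactEmbedding αp αm α Φ Real.pi g x y ∧
      ∀ (n : N) (r : ℝ), r ∈ Icc 0 Real.pi → ∀ t t' : ℝ, g (n, r, t) = g (n, r, t') :=
  fun ⟨g, x, y, hψ, hfib⟩ => no_fibred Φ hΦ α αp αm g x y hψ hfib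

end Pool.Agent.Results.MP_d82af4_gt.FibredTorsion
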